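import Pool.Agent.Helper26.GP.ME

/-! # GP / MC: finitely many elements of a dense subset of random forcing almost cover -/

universe u

namespace Pool.Agent.Helper26.GP

open ZFSet MeasureTheory Pool.Agent.Helper66.SC Pool.Agent.Helper22.SC Pool.Agent.Helper66.GP
open Pool.Agent.Helper76.GP

/-! ### finite intersections -/

/-- intersections of `n` elements of `D` -/
noncomputable def hN (D : ZFSet.{u}) : ℕ → ZFSet.{u}
  | 0 => {Str}
  | n + 1 => img (ZFSet.prod (hN D n) D) (fun p => pfst p ∩ psnd p)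

/-- finite intersections of elements of `D` -/
noncomputable def hD (D : ZFSet.{u}) : ZFSet.{u} :=
  ZFSet.iUnion (fun n : ULift.{u} ℕ => hN D n.down)

theorem hD_mem (hMB : ST_MB.{u}) {M : Set ZFSet.{u}} (hM : IsZF M ∅) {D : ZFSet.{u}}
    (hDM : D ∈ M) : hD D ∈ M := by
  have h : U KZ.{u} (fun _ _ (D : ZFSet.{u}) => ZFSet.iUnion (fun n : ULift.{u} ℕ =>
      hN D n.down)) := by
    refine U.natUnion (α := ZFSet.{u}) (z := fun _ _ _ => {Str})
      (S := fun _ _ D _ g => img (ZFSet.prod g D) (fun p => pfst p ∩ psnd p))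
      (H := fun _ _ D n => hN D n) ?_ ?_ ?_ ?_
    · exact U.singleton (hMB.1.comp (f := fun _ _ (_ : ZFSet.{u}) => PUnit.unit) U.unit)
    · apply_rules (transparency := .reducible) (maxDepth := 400) using is_poly
    · intro N A _ a _
      rfl
    · intro N A _ a _ n
      rfl
  exact in_zfset.1 (h.closed hM (a := D) (in_zfset.2 hDM))

theorem Sd_Str : Sd Str.{u} :=
  ⟨fun _ h => h, fun n t ht _ => mem_Str.2 ⟨n, t, ht, rfl⟩⟩

theorem US_Str : US Str.{u} = Set.univ := by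
  refine Set.eq_univ_of_forall fun x => ⟨0, ?_⟩
  exact mem_Str.2 ⟨0, _, inter_sub_nz x 0, rfl⟩

theorem hN_spec {D : ZFSet.{u}} (hSd : ∀ b ∈ D, Sd b) : ∀ n, ∀ o ∈ hN D n, Sd o ∧
    ∃ E : Finset ZFSet.{u}, (∀ b ∈ E, b ∈ D) ∧ US o = ⋂ b ∈ E, US b := by
  classical
  intro n
  induction n with
  | zero =>
    intro o ho
    have : o = Str := ZFSet.mem_singleton.1 ho
    subst this
    exact ⟨Sd_Str, ∅, by simp, by simp [US_Str]⟩
  | succ n ih =>
    intro o ho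
    obtain ⟨p, hp, rfl⟩ := mem_img.1 ho
    obtain ⟨x, hx, y, hy, rfl⟩ := mem_prod.1 hp
    rw [pfst_pair, psnd_pair]
    obtain ⟨h1, E, hE, hU⟩ := ih x hx
    refine ⟨Sd_inter h1 (hSd y hy), insert y E, ?_, ?_⟩
    · intro b hb
      rcases Finset.mem_insert.1 hb with h | h
      · rw [h]; exact hy
      · exact hE b h
    · rw [US_inter h1 (hSd y hy), Finset.set_biInter_insert, hU, Set.inter_comm]

theorem hD_spec {D : ZFSet.{u}} (hSd : ∀ b ∈ D, Sd b) {o : ZFSet.{u}} (ho : o ∈ hD D) : Sd o ∧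
    ∃ E : Finset ZFSet.{u}, (∀ b ∈ E, b ∈ D) ∧ US o = ⋂ b ∈ E, US b := by
  obtain ⟨⟨n⟩, hn⟩ := mem_iUnion.1 ho
  exact hN_spec hSd n o hn

theorem exists_hN {D : ZFSet.{u}} (hSd : ∀ b ∈ D, Sd b) (E : Finset ZFSet.{u}) :
    (∀ b ∈ E, b ∈ D) → ∃ n, ∃ o ∈ hN D n, US o = ⋂ b ∈ E, US b := by
  classical
  induction E using Finset.induction_on with
  | empty =>
    intro _
    exact ⟨0, Str, ZFSet.mem_singleton.2 rfl, by simp [US_Str]⟩
  | insert a E ha ih =>
    intro h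
    obtain ⟨n, o, ho, hU⟩ := ih fun b hb => h b (Finset.mem_insert_of_mem hb)
    have haD := h a (Finset.mem_insert_self _ _)
    refine ⟨n + 1, o ∩ a, mem_img.2 ⟨pair o a, pair_mem_prod.2 ⟨ho, haD⟩, ?_⟩, ?_⟩
    · rw [pfst_pair, psnd_pair]
    · rw [US_inter (hN_spec hSd n o ho).1 (hSd a haD), Finset.set_biInter_insert, hU,
        Set.inter_comm]

theorem exists_hD {D : ZFSet.{u}} (hSd : ∀ b ∈ D, Sd b) (E : Finset ZFSet.{u})
    (hE : ∀ b ∈ E, b ∈ D) : ∃ o ∈ hD D, US o = ⋂ b ∈ E, US b := by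
  obtain ⟨n, o, ho, h⟩ := exists_hN hSd E hE
  exact ⟨o, mem_iUnion.2 ⟨⟨n⟩, ho⟩, h⟩

/-! ### the complement of a finite set of strings -/

/-- strings incompatible with all the elements of `F` -/
noncomputable def coF (F : ZFSet.{u}) : ZFSet.{u} := Str.sep (fun s => ∀ s' ∈ F,
  ¬ (psnd s ∩ pfst s' = psnd s' ∩ pfst s))

theorem US_coF {F : ZFSet.{u}} (hF : F ∈ VO) (hFS : F ⊆ Str) : US (coF F) = (US F)ᶜ := by
  ext x
  constructor
  · rintro ⟨n, hn⟩ ⟨n', hn'⟩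
    have h1 := (ZFSet.mem_sep.1 hn).2 _ hn'
    apply h1
    rw [psnd_pair, pfst_pair, psnd_pair, pfst_pair]
    ext k
    simp only [ZFSet.mem_inter]
    tauto
  · intro hx
    -- a bound for the lengths
    have hrk : ∃ N : ℕ, ∀ s ∈ F, ZFSet.rank s < (N : Ordinal.{u}) := by
      unfold VO at hF
      rw [ZFSet.mem_vonNeumann] at hF
      obtain ⟨N, hN⟩ := Ordinal.lt_omega0.1 hF
      exact ⟨N, fun s hs => by rw [← hN]; exact rank_lt_of_mem hs⟩
    obtain ⟨N, hN⟩ := hrk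
    refine ⟨N, ZFSet.mem_sep.2 ⟨mem_Str.2 ⟨N, _, inter_sub_nz x N, rfl⟩, ?_⟩⟩
    intro s' hs' he
    obtain ⟨n', t', ht', rfl⟩ := mem_Str.1 (hFS hs')
    have hlt : n' < N := by
      have h1 := hN _ hs'
      rw [rank_opair] at h1
      have h2 : ((n' : ℕ) : Ordinal.{u}) ≤ max (rank (nz n' : ZFSet.{u})) (rank t') + 2 := by
        refine le_trans ?_ le_self_add
        refine le_trans ?_ (le_max_left _ _)
        rw [Ordinal.rank_toZFSet]
      exact_mod_cast h2.trans_lt h1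
    apply hx
    refine ⟨n', ?_⟩
    have he' : rl x ∩ nz N ∩ nz n' = t' ∩ nz N := by
      have h3 := he
      rw [psnd_pair, pfst_pair, psnd_pair, pfst_pair] at h3
      exact h3
    have h4 : rl x ∩ nz n' = t' := by
      ext k
      have h5 := ZFSet.ext_iff.1 he' k
      simp only [ZFSet.mem_inter] at h5 ⊢
      have h6 : k ∈ (nz n' : ZFSet.{u}) → k ∈ (nz N : ZFSet.{u}) := fun h => nzs hlt.le h
      have h7 : k ∈ t' → k ∈ (nz n' : ZFSet.{u}) := fun h => ht' h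
      tauto
    have h8 : pair (nz n') (rl x ∩ nz n') ∈ F := by rw [h4]; exact hs'
    exact h8

/-- the definable form of the measure inequality -/
def LeM (V R b F' k n : ZFSet.{u}) : Prop :=
  ∀ G ∈ V, (∀ s ∈ G, s ∈ b) → ¬ pair (pair G F') (pair k n) ∈ R

theorem leM_iff {b F' : ZFSet.{u}} {k n : ℕ} (hb : b ⊆ Str) (hF' : F' ∈ VO) (hS : F' ⊆ Str) :
    LeM VO MuR b F' (nz k) (nz n) ↔ coin (US b \ US F') ≤ (k : ENNReal) / 2 ^ n :=
  (MA7 b F' k n hb hF' hS).symm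

/-- approximations in the sense of `M` -/
def Apx (V R D' n F : ZFSet.{u}) : Prop := ∃ k ∈ ZFSet.omega,
  (∃ o ∈ D', (∀ s ∈ F, s ∈ o) ∧ LeM V R o ∅ k n ∧ LeM V R o F (nat 1) n) ∧
  ∀ k' ∈ k, ∀ o' ∈ D', ¬ LeM V R o' ∅ k' n

/-- MC. -/
theorem st_MC (hMB : ST_MB.{u}) : ST_MC.{u} := by
  classical
  intro M D hM hW hMu hDM hDR hDd ε hε
  by_contra hno
  push Not at hno
  have hSM : Str ∈ M := Str_mem hMB hM
  have hSd : ∀ b ∈ D, Sd b := fun b hb => (mem_RB.1 (hDR hb)).2.2.1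
  have hVM : (VO : ZFSet.{u}) ∈ M := (st_VO.2.2.2.2.2.2.2.1 M ∅ hM).1
  have hD'M : hD D ∈ M := hD_mem hMB hM hDM
  have h0V : (∅ : ZFSet.{u}) ∈ VO := by
    have := nz_VO.{u} 0
    simpa [nz] using this
  have h0S : (∅ : ZFSet.{u}) ⊆ Str := fun x hx => absurd hx (ZFSet.notMem_empty x)
  have hUS0 : US (∅ : ZFSet.{u}) = ∅ := by
    ext x
    constructor
    · rintro ⟨n, hn⟩
      exact absurd hn (ZFSet.notMem_empty _)
    · intro h
      exact absurd h (Set.notMem_empty x)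
  have hle0 : ∀ {b : ZFSet.{u}} {k n : ℕ}, b ⊆ Str →
      (LeM VO MuR b ∅ (nz k) (nz n) ↔ coin (US b) ≤ (k : ENNReal) / 2 ^ n) := by
    intro b k n hb
    rw [leM_iff hb h0V h0S, hUS0, Set.sdiff_empty]
  have hD'S : ∀ o ∈ hD D, o ⊆ Str := fun o ho => (hD_spec hSd ho).1.1
  -- the infimum
  let v : Finset ZFSet.{u} → ℝ := fun E => coin.real (⋂ b ∈ E, US b)
  let T : Set ℝ := {r | ∃ E : Finset ZFSet.{u}, (∀ b ∈ E, b ∈ D) ∧ r = v E}
  have hTne : T.Nonempty := ⟨v ∅, ∅, by simp, rfl⟩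
  have hTbd : BddBelow T := ⟨0, by
    rintro r ⟨E, -, rfl⟩
    exact measureReal_nonneg⟩
  set m : ℝ := sInf T with hm
  have hmle : ∀ E : Finset ZFSet.{u}, (∀ b ∈ E, b ∈ D) → m ≤ v E := fun E hE =>
    csInf_le hTbd ⟨E, hE, rfl⟩
  have hmo : ∀ o ∈ hD D, m ≤ coin.real (US o) := by
    intro o ho
    obtain ⟨-, E, hE, hU⟩ := hD_spec hSd ho
    rw [hU]
    exact hmle E hE
  have hεtop : ε ≠ ⊤ := by
    intro h
    have h1 := hno ∅ (by simp)
    rw [h] at h1
    exact absurd (top_le_iff.1 h1) (measure_ne_top _ _)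
  have hmpos : 0 < m := by
    have h1 : 0 < ε.toReal := ENNReal.toReal_pos hε.ne' hεtop
    refine h1.trans_le (le_csInf hTne ?_)
    rintro r ⟨E, hE, rfl⟩
    exact ENNReal.toReal_mono (measure_ne_top _ _) (hno E hE)
  have hreal : ∀ (S : Set (ℕ → Bool)) (k n : ℕ), coin S ≤ (k : ENNReal) / 2 ^ n ↔
      coin.real S ≤ (k : ℝ) / 2 ^ n := by
    intro S k n
    have h1 : ((k : ENNReal) / 2 ^ n) = ENNReal.ofReal ((k : ℝ) / 2 ^ n) := by
      rw [ENNReal.ofReal_div_of_pos (by positivity), ENNReal.ofReal_natCast,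
        ENNReal.ofReal_pow (by norm_num)]
      norm_num
    rw [h1, measureReal_def]
    exact ENNReal.le_ofReal_iff_toReal_le (measure_ne_top _ _) (by positivity)
  -- approximations exist
  have hex : ∀ n : ℕ, ∃ F ∈ (VO : ZFSet.{u}), F ⊆ Str ∧ Apx VO MuR (hD D) (nz n) F := by
    intro n
    have hk : ∃ k : ℕ, ∃ o ∈ hD D, coin (US o) ≤ (k : ENNReal) / 2 ^ n := by
      obtain ⟨o, ho, hU⟩ := exists_hD hSd ∅ (by simp)
      refine ⟨2 ^ n, o, ho, ?_⟩
      rw [hreal]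
      have : (((2 ^ n : ℕ) : ℝ) / 2 ^ n) = 1 := by
        push_cast
        exact div_self (by positivity)
      rw [this]
      exact measureReal_le_one
    obtain ⟨o, ho, hok⟩ := Nat.find_spec hk
    obtain ⟨F, hFV, hFo, hF⟩ := MA8 o ((1 : ℕ) / 2 ^ n) (by
      refine ENNReal.div_pos (by simp) (by simp)) (hD'S o ho)
    refine ⟨F, hFV, fun s hs => hD'S o ho (hFo hs), nz (Nat.find hk),
      mem_omega_iff'.2 ⟨_, rfl⟩, ⟨o, ho, fun s hs => hFo hs, ?_, ?_⟩, ?_⟩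
    · rw [hle0 (hD'S o ho)]; exact hok
    · have : (nat 1 : ZFSet.{u}) = nz 1 := rfl
      rw [this, leM_iff (hD'S o ho) hFV fun s hs => hD'S o ho (hFo hs)]
      exact hF.le
    · intro k' hk' o' ho' h
      obtain ⟨i, hi, rfl⟩ := mem_nz.1 hk'
      rw [hle0 (hD'S o' ho')] at h
      exact Nat.find_min hk hi ⟨o', ho', h⟩
  -- properties of approximations
  have hap : ∀ (n : ℕ) (F : ZFSet.{u}), F ∈ (VO : ZFSet.{u}) → F ⊆ Str →
      Apx VO MuR (hD D) (nz n) F → ∃ o ∈ hD D, F ⊆ o ∧ coin.real (US o) ≤ m + 1 / 2 ^ n ∧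
        coin.real (US o \ US F) ≤ 1 / 2 ^ n := by
    rintro n F hFV hFS ⟨k, hk, ⟨o, ho, hFo, h1, h2⟩, h3⟩
    obtain ⟨k, rfl⟩ := mem_omega_iff'.1 hk
    have h1' : LeM VO MuR o ∅ (nz k) (nz n) := h1
    rw [hle0 (hD'S o ho), hreal] at h1'
    have h2' : LeM VO MuR o F (nz 1) (nz n) := h2
    rw [leM_iff (hD'S o ho) hFV hFS, hreal] at h2'
    refine ⟨o, ho, fun s hs => hFo s hs, ?_, by simpa using h2'⟩
    rcases Nat.eq_zero_or_pos k with hk0 | hk0
    · subst hk0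
      refine h1'.trans ?_
      have : (0 : ℝ) ≤ 1 / 2 ^ n := by positivity
      simp only [Nat.cast_zero, zero_div]
      linarith
    · have h4 : ((k : ℝ) - 1) / 2 ^ n ≤ m := by
        refine le_csInf hTne ?_
        rintro r ⟨E, hE, rfl⟩
        obtain ⟨o', ho', hU⟩ := exists_hD hSd E hE
        have h5 := h3 (nz (k - 1)) (nzm.2 (by omega)) o' ho'
        rw [hle0 (hD'S o' ho'), hreal, not_le, hU] at h5
        have h6 : (((k - 1 : ℕ) : ℕ) : ℝ) = (k : ℝ) - 1 := by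
          rw [Nat.cast_sub hk0]; simp
        rw [h6] at h5
        exact h5.le
      refine h1'.trans ?_
      have h5 : (k : ℝ) / 2 ^ n = ((k : ℝ) - 1) / 2 ^ n + 1 / 2 ^ n := by ring
      rw [h5]
      linarith
  -- the choice
  obtain ⟨E, hEM, hE⟩ := exists_chooses hM hW hVM
  let Sn : ZFSet.{u} → ZFSet.{u} := fun n =>
    (VO : ZFSet.{u}).sep (fun F => (∀ s ∈ F, s ∈ (Str : ZFSet.{u})) ∧ Apx VO MuR (hD D) n F)
  let f : ZFSet.{u} → ZFSet.{u} := fun n => argmin E (Sn n)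
  have hf : ∀ n : ℕ, f (nz n) ∈ (VO : ZFSet.{u}) ∧ f (nz n) ⊆ Str ∧
      Apx VO MuR (hD D) (nz n) (f (nz n)) := by
    intro n
    obtain ⟨F, hFV, hFS, hFA⟩ := hex n
    have hne : Sn (nz n) ≠ ∅ := by
      intro h
      have : F ∈ Sn (nz n) := ZFSet.mem_sep.2 ⟨hFV, fun s hs => hFS hs, hFA⟩
      rw [h] at this
      exact ZFSet.notMem_empty _ this
    have h1 := hE (Sn (nz n)) (fun x hx => (ZFSet.mem_sep.1 hx).1) hne
    have h2 := ZFSet.mem_sep.1 h1
    exact ⟨h2.1, fun s hs => h2.2.1 s hs, h2.2.2⟩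
  choose o ho hfo ho1 ho2 using fun n : ℕ => hap n _ (hf n).1 (hf n).2.1 (hf n).2.2
  -- the starting point
  obtain ⟨n0, hn0⟩ : ∃ n0 : ℕ, 2 * (1 / 2 : ℝ) ^ n0 < m := by
    obtain ⟨n0, h⟩ := exists_pow_lt_of_lt_one (show (0 : ℝ) < m / 2 by positivity)
      (show (1 / 2 : ℝ) < 1 by norm_num)
    exact ⟨n0, by linarith⟩
  -- the code
  set c0 : ZFSet.{u} := (Str : ZFSet.{u}).sep (fun s => ∃ n ∈ ZFSet.omega,
    (∀ i ∈ (nat n0 : ZFSet.{u}), i ∈ n) ∧ ∀ s' ∈ f n, ¬ (psnd s ∩ pfst s' = psnd s' ∩ pfst s))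
    with hc0
  have hc0M : c0 ∈ M := by
    have h := (show U KZ (fun _ _ (p : ((ZFSet.{u} × ZFSet.{u}) × ZFSet.{u}) ×
        (ZFSet.{u} × ZFSet.{u})) =>
        ZFSet.sep (fun s => ∃ n ∈ ZFSet.omega, (∀ i ∈ (nat n0 : ZFSet.{u}), i ∈ n) ∧
          ∀ s' ∈ argmin p.2.2 (ZFSet.sep (fun F => (∀ s ∈ F, s ∈ p.2.1) ∧
            ∃ k ∈ ZFSet.omega, (∃ o ∈ p.1.2, (∀ s ∈ F, s ∈ o) ∧
              (∀ G ∈ p.1.1.1, (∀ s ∈ G, s ∈ o) → ¬ pair (pair G ∅) (pair k n) ∈ p.1.1.2) ∧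
              (∀ G ∈ p.1.1.1, (∀ s ∈ G, s ∈ o) →
                ¬ pair (pair G F) (pair (nat 1) n) ∈ p.1.1.2)) ∧
            ∀ k' ∈ k, ∀ o' ∈ p.1.2, ¬ (∀ G ∈ p.1.1.1, (∀ s ∈ G, s ∈ o') →
                ¬ pair (pair G ∅) (pair k' n) ∈ p.1.1.2)) p.1.1.1),
            ¬ (psnd s ∩ pfst s' = psnd s' ∩ pfst s)) p.2.1) by
      apply_rules (transparency := .reducible) (maxDepth := 400) using is_poly).closed hM
      (a := (((VO, MuR), hD D), (Str, E))) (by simp [hVM, hMu, hD'M, hSM, hEM])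
    exact in_zfset.1 h
  have hc0S : c0 ⊆ Str := fun s hs => (ZFSet.mem_sep.1 hs).1
  have hmc0 : ∀ s, s ∈ c0 ↔ ∃ n : ℕ, n0 ≤ n ∧ s ∈ coF (f (nz n)) := by
    intro s
    rw [hc0, ZFSet.mem_sep]
    constructor
    · rintro ⟨hs, n, hn, h1, h2⟩
      obtain ⟨n, rfl⟩ := mem_omega_iff'.1 hn
      refine ⟨n, ?_, ZFSet.mem_sep.2 ⟨hs, h2⟩⟩
      by_contra hlt
      have h3 : (nz n : ZFSet.{u}) ∈ (nat n0 : ZFSet.{u}) := nzm.2 (not_le.1 hlt)
      exact absurd (nzm.1 (h1 _ h3)) (lt_irrefl _)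
    · rintro ⟨n, hn, h⟩
      refine ⟨(ZFSet.mem_sep.1 h).1, nz n, mem_omega_iff'.2 ⟨n, rfl⟩, ?_, (ZFSet.mem_sep.1 h).2⟩
      intro i hi
      exact nzs hn hi
  have hUc0 : US c0 = ⋃ i : ℕ, (US (f (nz (n0 + i))))ᶜ := by
    ext x
    rw [Set.mem_iUnion]
    constructor
    · rintro ⟨j, hj⟩
      obtain ⟨n, hn, h⟩ := (hmc0 _).1 hj
      refine ⟨n - n0, ?_⟩
      rw [show n0 + (n - n0) = n by omega, ← US_coF (hf n).1 (hf n).2.1]
      exact ⟨j, h⟩
    · rintro ⟨i, hi⟩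
      rw [← US_coF (hf (n0 + i)).1 (hf (n0 + i)).2.1] at hi
      obtain ⟨j, hj⟩ := hi
      exact ⟨j, (hmc0 _).2 ⟨n0 + i, Nat.le_add_right _ _, hj⟩⟩
  -- finite approximations of the closed set
  let C : ℕ → Set (ℕ → Bool) := fun N => ⋂ i ∈ Finset.range N, US (f (nz (n0 + i)))
  let O : ℕ → Set (ℕ → Bool) := fun N => ⋂ i ∈ Finset.range N, US (o (n0 + i))
  have hOm : ∀ N, m ≤ coin.real (O N) := by
    intro N
    choose Ei hEi hUi using fun i : ℕ => (hD_spec hSd (ho (n0 + i))).2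
    have h1 := hmle ((Finset.range N).biUnion Ei) (by
      intro b hb
      obtain ⟨i, -, hb⟩ := Finset.mem_biUnion.1 hb
      exact hEi i b hb)
    have h2 : O N = ⋂ b ∈ (Finset.range N).biUnion Ei, US b := by
      rw [Finset.set_biInter_biUnion]
      simp only [O, hUi]
    rw [h2]
    exact h1
  have hOC : ∀ N, O N ⊆ C N ∪ ⋃ i ∈ Finset.range N, (US (o (n0 + i)) \ US (f (nz (n0 + i)))) := by
    intro N x hx
    by_cases h : x ∈ C N
    · exact Or.inl h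
    · right
      simp only [C, Set.mem_iInter, not_forall] at h
      obtain ⟨i, hi, hxi⟩ := h
      have hx' : x ∈ US (o (n0 + i)) := by
        simp only [O, Set.mem_iInter] at hx
        exact hx i hi
      exact Set.mem_iUnion₂.2 ⟨i, hi, hx', hxi⟩
  have hgeo : ∀ N : ℕ, ∑ i ∈ Finset.range N, (1 : ℝ) / 2 ^ (n0 + i) ≤ 2 * (1 / 2) ^ n0 := by
    intro N
    have h1 : ∀ i ∈ Finset.range N, (1 : ℝ) / 2 ^ (n0 + i) = (1 / 2) ^ n0 * (1 / 2) ^ i := by
      intro i _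
      rw [← pow_add, one_div_pow]
    rw [Finset.sum_congr rfl h1, ← Finset.mul_sum]
    have h2 : ∑ i ∈ Finset.range N, (1 / 2 : ℝ) ^ i ≤ 2 := by
      rw [geom_sum_eq (by norm_num)]
      have : (0 : ℝ) ≤ (1 / 2) ^ N := by positivity
      rw [div_le_iff_of_neg (by norm_num)]
      linarith
    have h3 : (0 : ℝ) ≤ (1 / 2) ^ n0 := by positivity
    nlinarith
  have hCm : ∀ N, m - 2 * (1 / 2) ^ n0 ≤ coin.real (C N) := by
    intro N
    have h1 : coin.real (O N) ≤ coin.real (C N) + ∑ i ∈ Finset.range N,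
        coin.real (US (o (n0 + i)) \ US (f (nz (n0 + i)))) := by
      refine (measureReal_mono (hOC N)).trans ?_
      refine (measureReal_union_le _ _).trans ?_
      have := measureReal_biUnion_finset_le (μ := coin) (Finset.range N)
        (fun i => US (o (n0 + i)) \ US (f (nz (n0 + i))))
      linarith
    have h2 : ∑ i ∈ Finset.range N, coin.real (US (o (n0 + i)) \ US (f (nz (n0 + i)))) ≤
        ∑ i ∈ Finset.range N, (1 : ℝ) / 2 ^ (n0 + i) := Finset.sum_le_sum fun i _ => ho2 (n0 + i)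
    have h3 := hgeo N
    have h4 := hOm N
    linarith
  have hCanti : Antitone C := by
    intro N N' h x hx
    simp only [C, Set.mem_iInter] at hx ⊢
    intro i hi
    exact hx i (Finset.mem_range.2 ((Finset.mem_range.1 hi).trans_le h))
  have hCmeas : ∀ N, MeasurableSet (C N) := fun N =>
    Finset.measurableSet_biInter _ fun i _ => meas_US _
  have hcompl : (US c0)ᶜ = ⋂ N, C N := by
    rw [hUc0]
    ext x
    simp only [C, Set.mem_compl_iff, Set.mem_iUnion, not_exists, not_not, Set.mem_iInter]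
    constructor
    · intro h N i _
      exact h i
    · intro h i
      exact h (i + 1) i (Finset.mem_range.2 (Nat.lt_succ_self i))
  have hCpos : 0 < coin (US c0)ᶜ := by
    rw [hcompl, hCanti.measure_iInter (fun N => (hCmeas N).nullMeasurableSet)
      ⟨0, measure_ne_top _ _⟩]
    have h1 : 0 < ENNReal.ofReal (m - 2 * (1 / 2) ^ n0) := ENNReal.ofReal_pos.2 (by linarith)
    refine h1.trans_le (le_iInf fun N => ?_)
    rw [ENNReal.ofReal_le_iff_le_toReal (measure_ne_top _ _)]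
    exact hCm N
  have hc01 : coin (US c0) < 1 := by
    by_contra h
    have h1 : coin (US c0) = 1 := le_antisymm prob_le_one (not_lt.1 h)
    rw [prob_compl_eq_one_sub (meas_US c0), h1, tsub_self] at hCpos
    exact lt_irrefl _ hCpos
  obtain ⟨d, hdD, hcd⟩ := hDd _ (satu_mem_RB hMB hM hc0M hc0S hc01)
  have hUd : US c0 ⊆ US d := by
    rw [← US_satu hc0S]
    exact US_mono hcd
  have hd1 : coin (US d) < 1 := (mem_RB.1 (hDR hdD)).2.2.2
  have hδ : 0 < coin.real (US d)ᶜ := by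
    rw [probReal_compl_eq_one_sub (meas_US d)]
    have h1 : coin.real (US d) < 1 := by
      rw [measureReal_def]
      have := (ENNReal.toReal_lt_toReal (measure_ne_top _ _) ENNReal.one_ne_top).2 hd1
      simpa using this
    linarith
  have hfin : ∀ i : ℕ, coin.real (US d)ᶜ ≤ 1 / 2 ^ (n0 + i) := by
    intro i
    have hsub : (US d)ᶜ ⊆ US (o (n0 + i)) := by
      intro x hx
      have h1 : x ∉ US c0 := fun h => hx (hUd h)
      rw [hUc0] at h1
      simp only [Set.mem_iUnion, Set.mem_compl_iff, not_exists, not_not] at h1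
      exact US_mono (hfo (n0 + i)) (h1 i)
    have h1 : coin.real (US (o (n0 + i)) ∩ US d) + coin.real (US (o (n0 + i)) \ US d) =
        coin.real (US (o (n0 + i))) := measureReal_inter_add_sdiff (meas_US d)
    have h2 : US (o (n0 + i)) \ US d = (US d)ᶜ := by
      ext x
      constructor
      · exact fun h => h.2
      · exact fun h => ⟨hsub h, h⟩
    obtain ⟨-, Ei, hEi, hUi⟩ := hD_spec hSd (ho (n0 + i))
    have h3 := hmle (insert d Ei) (by
      intro b hb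
      rcases Finset.mem_insert.1 hb with h | h
      · rw [h]; exact hdD
      · exact hEi b h)
    have h4 : v (insert d Ei) = coin.real (US (o (n0 + i)) ∩ US d) := by
      simp only [v]
      rw [Finset.set_biInter_insert, hUi, Set.inter_comm]
    rw [h4] at h3
    rw [h2] at h1
    have h5 := ho1 (n0 + i)
    linarith
  obtain ⟨i, hi⟩ := exists_pow_lt_of_lt_one hδ (show (1 / 2 : ℝ) < 1 by norm_num)
  have h1 := hfin i
  have h2 : (1 : ℝ) / 2 ^ (n0 + i) ≤ (1 / 2) ^ i := by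
    rw [pow_add, one_div_pow]
    have h3 : (1 : ℝ) ≤ 2 ^ n0 := one_le_pow₀ (by norm_num)
    have h4 : (0 : ℝ) < 2 ^ i := by positivity
    rw [div_le_div_iff₀ (by positivity) h4]
    nlinarith
  linarith

end Pool.Agent.Helper26.GP
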