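import Pool.Agent.Helper66.GP.Kit
import Pool.Agent.Helper76.GP.MA
import Pool.Agent.Helper76.GP.VO

/-! # GP / ME: generic filters of random forcing are given by reals -/

universe u

namespace Pool.Agent.Helper26.GP

open ZFSet MeasureTheory Pool.Agent.Helper66.SC Pool.Agent.Helper22.SC Pool.Agent.Helper66.GP
open Pool.Agent.Helper76.GP

/-! ### membership in random forcing -/

theorem mem_RB {M : Set ZFSet.{u}} {b : ZFSet.{u}} :
    b ∈ RB M ↔ b ∈ M ∧ b ⊆ Str ∧ Sd b ∧ coin (US b) < 1 := by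
  unfold RB
  rw [ZFSet.mem_sep, mem_Pow, and_assoc]

theorem Str_mem (hMB : ST_MB.{u}) {M A : Set ZFSet.{u}} (hM : IsZF M A) : Str ∈ M :=
  in_zfset.1 (hMB.1.closed hM (a := PUnit.unit) in_unit)

theorem satu_mem (hMB : ST_MB.{u}) {M A : Set ZFSet.{u}} (hM : IsZF M A) {b : ZFSet.{u}}
    (hb : b ∈ M) : satu b ∈ M :=
  in_zfset.1 (hMB.2.1.closed hM (a := b) (in_zfset.2 hb))

theorem satu_sub_Str (b : ZFSet.{u}) : satu b ⊆ Str := fun _ hs => (ZFSet.mem_sep.1 hs).1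

/-- a code of measure less than one gives a condition -/
theorem satu_mem_RB (hMB : ST_MB.{u}) {M A : Set ZFSet.{u}} (hM : IsZF M A) {b : ZFSet.{u}}
    (hb : b ∈ M) (hS : b ⊆ Str) (h : coin (US b) < 1) : satu b ∈ RB M :=
  mem_RB.2 ⟨satu_mem hMB hM hb, satu_sub_Str b, Sd_satu hS, by rw [US_satu hS]; exact h⟩

/-! ### deciding strings -/

/-- `c` contains all the strings of length `n` except possibly `t` -/
def Dcd (c : ZFSet.{u}) (n : ℕ) (t : ZFSet.{u}) : Prop :=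
  t ⊆ nz n ∧ ∀ t', t' ⊆ nz n → t' ≠ t → pair (nz n) t' ∈ c

theorem Dcd.eq {c : ZFSet.{u}} {n : ℕ} {t : ZFSet.{u}} (h : Dcd c n t) {x : ℕ → Bool}
    (hx : x ∉ US c) : rl x ∩ nz n = t := by
  by_contra hne
  exact hx ⟨n, h.2 _ (inter_sub_nz x n) hne⟩

theorem exists_notMem_US {c : ZFSet.{u}} (h : coin (US c) < 1) : ∃ x, x ∉ US c := by
  by_contra hall
  push Not at hall
  have : US c = Set.univ := Set.eq_univ_of_forall hall
  rw [this, measure_univ] at h
  exact lt_irrefl _ h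

/-- the strings of length `n` different from `t` -/
noncomputable def oth (s : ZFSet.{u}) : ZFSet.{u} :=
  Str.sep (fun s' => pfst s' = pfst s ∧ ¬ s' = s)

theorem mem_oth {n : ℕ} {t s' : ZFSet.{u}} : s' ∈ oth (pair (nz n) t) ↔
    ∃ t', t' ⊆ nz n ∧ t' ≠ t ∧ s' = pair (nz n) t' := by
  unfold oth
  rw [ZFSet.mem_sep, mem_Str]
  constructor
  · rintro ⟨⟨m, t', ht', rfl⟩, h1, h2⟩
    rw [pfst_pair, pfst_pair] at h1
    have := nzi.1 h1
    subst this
    exact ⟨t', ht', fun h => h2 (by rw [h]), rfl⟩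
  · rintro ⟨t', ht', hne, rfl⟩
    refine ⟨⟨n, t', ht', rfl⟩, by rw [pfst_pair, pfst_pair], fun h => hne ?_⟩
    exact (ZFSet.pair_inj.1 h).2

theorem oth_sub_Str (s : ZFSet.{u}) : oth s ⊆ Str := fun _ hs => (ZFSet.mem_sep.1 hs).1

theorem oth_mem (hMB : ST_MB.{u}) {M A : Set ZFSet.{u}} (hM : IsZF M A) {s : ZFSet.{u}}
    (hs : s ∈ M) : oth s ∈ M := by
  have h := (show U KZ (fun _ _ (p : ZFSet.{u} × ZFSet.{u}) =>
      ZFSet.sep (fun s' => pfst s' = pfst p.2 ∧ ¬ s' = p.2) p.1) by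
    apply_rules (transparency := .reducible) (maxDepth := 400) using is_poly).closed hM
    (a := (Str, s)) (by simp [hs, Str_mem hMB hM])
  unfold oth
  simpa using h

theorem US_oth (n : ℕ) (t : ZFSet.{u}) : US (oth (pair (nz n) t)) = (cyl n t)ᶜ ∨
    ¬ t ⊆ nz n := by
  by_cases ht : t ⊆ nz n
  · left
    ext x
    constructor
    · rintro ⟨m, hm⟩ hx
      obtain ⟨t', ht', hne, he⟩ := mem_oth.1 hm
      obtain ⟨h1, h2⟩ := ZFSet.pair_inj.1 he
      have := nzi.1 h1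
      subst this
      have hx' : rl x ∩ nz m = t := hx
      exact hne (h2.symm.trans hx')
    · intro hx
      exact ⟨n, mem_oth.2 ⟨_, inter_sub_nz x n, fun h => hx h, rfl⟩⟩
  · exact Or.inr ht

theorem measurable_cyl (n : ℕ) (t : ZFSet.{u}) : MeasurableSet (cyl n t) := by
  have h : IsOpen {x : ℕ → Bool | pair (nz n) (rl x ∩ nz n) ∈ ({pair (nz n) t} : ZFSet.{u})} :=
    isOpen_level _ n
  have h2 : {x : ℕ → Bool | pair (nz n) (rl x ∩ nz n) ∈ ({pair (nz n) t} : ZFSet.{u})} =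
      cyl n t := by
    ext x
    simp only [Set.mem_ofPred_eq, ZFSet.mem_singleton]
    constructor
    · intro h
      exact (ZFSet.pair_inj.1 h).2
    · intro h
      have h' : rl x ∩ nz n = t := h
      rw [h']
  rw [← h2]
  exact h.measurableSet

/-- a condition deciding a string -/
theorem exists_dcd (hMB : ST_MB.{u}) {M A : Set ZFSet.{u}} (hM : IsZF M A) {b : ZFSet.{u}}
    (hb : b ∈ RB M) {n : ℕ} {t : ZFSet.{u}} (ht : t ⊆ nz n) (htM : pair (nz n) t ∈ M)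
    (h : 0 < coin (cyl n t \ US b)) : ∃ c ∈ RB M, b ⊆ c ∧ Dcd c n t := by
  obtain ⟨hbM, hbS, hbSd, hb1⟩ := mem_RB.1 hb
  have hU : US (oth (pair (nz n) t)) = (cyl n t)ᶜ := (US_oth n t).resolve_right (fun h => h ht)
  have hs : b ∪ oth (pair (nz n) t) ⊆ Str := by
    intro s hs
    rcases ZFSet.mem_union.1 hs with h | h
    · exact hbS h
    · exact oth_sub_Str _ h
  have hm : b ∪ oth (pair (nz n) t) ∈ M := by
    have h := (show U KZ (fun _ _ (p : ZFSet.{u} × ZFSet.{u}) => p.1 ∪ p.2) by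
      apply_rules (transparency := .reducible) (maxDepth := 400) using is_poly).closed hM
      (a := (b, oth (pair (nz n) t))) (by simp [hbM, oth_mem hMB hM htM])
    simpa using h
  have hc : coin (US (b ∪ oth (pair (nz n) t))) < 1 := by
    rw [US_union, hU]
    have h1 : US b ∪ (cyl n t)ᶜ = (cyl n t \ US b)ᶜ := by
      ext x
      simp only [Set.mem_union, Set.mem_compl_iff, Set.mem_sdiff]
      tauto
    rw [h1, prob_compl_eq_one_sub ((measurable_cyl n t).diff (meas_US b))]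
    exact ENNReal.sub_lt_self ENNReal.one_ne_top one_ne_zero h.ne'
  refine ⟨satu (b ∪ oth (pair (nz n) t)), satu_mem_RB hMB hM hm hs hc, ?_, ht, ?_⟩
  · intro s h
    exact sub_satu hs (ZFSet.mem_union.2 (Or.inl h))
  · intro t' ht' hne
    exact sub_satu hs (ZFSet.mem_union.2 (Or.inr (mem_oth.2 ⟨t', ht', hne, rfl⟩)))

/-- a set of positive measure meets some cylinder of length `n` in positive measure -/
theorem exists_cyl {S : Set (ℕ → Bool)} (h : 0 < coin S) (n : ℕ) :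
    ∃ t : ZFSet.{u}, t ⊆ nz n ∧ 0 < coin (S ∩ cyl n t) ∧ ∃ x ∈ S, rl x ∩ nz n = t := by
  by_contra hno
  push Not at hno
  have hcov : S ⊆ ⋃ f : Fin n → Bool, S ∩ {x | ∀ i : Fin n, x i = f i} := by
    intro x hx
    exact Set.mem_iUnion.2 ⟨fun i => x i, hx, fun i => rfl⟩
  have h0 : coin (⋃ f : Fin n → Bool, S ∩ {x | ∀ i : Fin n, x i = f i}) = 0 := by
    rw [measure_iUnion_null_iff]
    intro f
    by_cases hne : (S ∩ {x | ∀ i : Fin n, x i = f i}).Nonempty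
    · obtain ⟨x0, hx0, hx0f⟩ := hne
      have hsub : S ∩ {x | ∀ i : Fin n, x i = f i} ⊆ S ∩ cyl.{u} n (rl x0 ∩ nz n) := by
        rintro x ⟨hx, hxf⟩
        refine ⟨hx, rl_eq.2 fun i hi => ?_⟩
        rw [hxf ⟨i, hi⟩, hx0f ⟨i, hi⟩]
      have h1 : ¬ 0 < coin (S ∩ cyl.{u} n (rl x0 ∩ nz n)) := fun h1 =>
        hno (rl x0 ∩ nz n) (inter_sub_nz x0 n) h1 x0 hx0 rfl
      exact measure_mono_null hsub (le_antisymm (not_lt.1 h1) zero_le)
    · rw [Set.not_nonempty_iff_eq_empty.1 hne, measure_empty]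
  exact h.ne' (measure_mono_null hcov h0)

theorem str_mem_M (hMB : ST_MB.{u}) {M A : Set ZFSet.{u}} (hM : IsZF M A) {n : ℕ}
    {t : ZFSet.{u}} (ht : t ⊆ nz n) : pair (nz n) t ∈ M :=
  hM.trans _ (Str_mem hMB hM) _ (mem_Str.2 ⟨n, t, ht, rfl⟩)

/-- density: deciding the strings of length `n` -/
theorem dense_level (hMB : ST_MB.{u}) {M A : Set ZFSet.{u}} (hM : IsZF M A) {b : ZFSet.{u}}
    (hb : b ∈ RB M) (n : ℕ) : ∃ c ∈ RB M, b ⊆ c ∧ ∃ t, Dcd c n t := by
  obtain ⟨hbM, hbS, hbSd, hb1⟩ := mem_RB.1 hb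
  have h1 : 0 < coin (US b)ᶜ := by
    rw [prob_compl_eq_one_sub (meas_US b)]
    exact tsub_pos_of_lt hb1
  obtain ⟨t, ht, h2, -⟩ := exists_cyl.{u} h1 n
  have h3 : (US b)ᶜ ∩ cyl n t = cyl n t \ US b := by
    ext x
    simp only [Set.mem_inter_iff, Set.mem_compl_iff, Set.mem_sdiff]
    tauto
  rw [h3] at h2
  obtain ⟨c, hc, hbc, hd⟩ := exists_dcd hMB hM hb ht (str_mem_M hMB hM ht) h2
  exact ⟨c, hc, hbc, t, hd⟩

/-- density: containing `b` or avoiding it -/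
theorem dense_code (hMB : ST_MB.{u}) {M A : Set ZFSet.{u}} (hM : IsZF M A) {b c : ZFSet.{u}}
    (hb : b ∈ RB M) (hc : c ∈ RB M) : ∃ r ∈ RB M, c ⊆ r ∧
      (b ⊆ r ∨ ∃ (n : ℕ) (t : ZFSet.{u}), pair (nz n) t ∈ b ∧ Dcd r n t) := by
  obtain ⟨hbM, hbS, hbSd, hb1⟩ := mem_RB.1 hb
  obtain ⟨hcM, hcS, hcSd, hc1⟩ := mem_RB.1 hc
  have hs : c ∪ b ⊆ Str := by
    intro s hs
    rcases ZFSet.mem_union.1 hs with h | h
    · exact hcS h
    · exact hbS h
  by_cases h : coin (US (c ∪ b)) < 1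
  · have hm : c ∪ b ∈ M := by
      have h := (show U KZ (fun _ _ (p : ZFSet.{u} × ZFSet.{u}) => p.1 ∪ p.2) by
        apply_rules (transparency := .reducible) (maxDepth := 400) using is_poly).closed hM
        (a := (c, b)) (by simp [hbM, hcM])
      simpa using h
    refine ⟨satu (c ∪ b), satu_mem_RB hMB hM hm hs h, ?_, Or.inl ?_⟩
    · intro s h
      exact sub_satu hs (ZFSet.mem_union.2 (Or.inl h))
    · intro s h
      exact sub_satu hs (ZFSet.mem_union.2 (Or.inr h))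
  · have h1 : 0 < coin (US b \ US c) := by
      by_contra h0
      have h0' : coin (US b \ US c) = 0 := le_antisymm (not_lt.1 h0) zero_le
      have h2 : US (c ∪ b) = US c ∪ (US b \ US c) := by
        rw [US_union, Set.union_sdiff_self]
      apply h
      rw [h2]
      calc coin (US c ∪ (US b \ US c)) ≤ coin (US c) + coin (US b \ US c) := measure_union_le _ _
        _ = coin (US c) := by rw [h0', add_zero]
        _ < 1 := hc1
    -- a level of `b`
    have h2 : US b \ US c = ⋃ n : ℕ, ({x : ℕ → Bool | pair (nz n) (rl x ∩ nz n) ∈ b} \ US c) := by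
      rw [← Set.iUnion_sdiff]
      congr 1
      ext x
      simp [mem_US]
    rw [h2] at h1
    obtain ⟨n, hn⟩ : ∃ n : ℕ, 0 < coin ({x : ℕ → Bool | pair (nz n) (rl x ∩ nz n) ∈ b} \ US c) := by
      by_contra hno
      push Not at hno
      refine h1.ne' (measure_iUnion_null fun n => le_antisymm (hno n) zero_le)
    obtain ⟨t, ht, h3, x, ⟨hx1, -⟩, hxt⟩ := exists_cyl.{u} hn n
    have htb : pair (nz n) t ∈ b := by
      have : pair (nz n) (rl x ∩ nz n) ∈ b := hx1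
      rwa [hxt] at this
    have h4 : 0 < coin (cyl n t \ US c) := by
      refine h3.trans_le (measure_mono ?_)
      rintro z ⟨⟨-, hz⟩, hz'⟩
      exact ⟨hz', hz⟩
    obtain ⟨r, hr, hcr, hd⟩ := exists_dcd hMB hM hc ht (str_mem_M hMB hM ht) h4
    exact ⟨r, hr, hcr, Or.inr ⟨n, t, htb, hd⟩⟩

/-- ME. -/
theorem st_ME (hMB : ST_MB.{u}) : ST_ME.{u} := by
  intro M F hM hMu hF
  have hR : RB M ∈ M := (hMB.2.2.2.2 M ∅ hM.zf hMu).1
  have hSM : Str ∈ M := Str_mem hMB hM.zf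
  have hZ := FB4 M (RB M) F hM.zf hR hF
  have hFE : F ∈ Ext M F := gen_mem_ext hM hR hF
  have hSE : Str ∈ Ext M F := sub_ext hM hR hF hSM
  -- conditions in the filter
  have hF1 : ∀ c ∈ F, ∃ x, x ∉ US c := fun c hc => exists_notMem_US (mem_RB.1 (hF.sub hc)).2.2.2
  -- the real
  set y : ZFSet.{u} := ZFSet.omega.sep (fun k => ∃ c ∈ F, ∃ s ∈ Str, k ∈ psnd s ∧
    ∀ s' ∈ Str, pfst s' = pfst s → ¬ s' = s → s' ∈ c) with hy
  have hyE : y ∈ Ext M F := by
    have h := (show U KZ (fun _ _ (p : ZFSet.{u} × ZFSet.{u}) =>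
        ZFSet.sep (fun k => ∃ c ∈ p.1, ∃ s ∈ p.2, k ∈ psnd s ∧
          ∀ s' ∈ p.2, pfst s' = pfst s → ¬ s' = s → s' ∈ c) ZFSet.omega) by
      apply_rules (transparency := .reducible) (maxDepth := 400) using is_poly).closed hZ
      (a := (F, Str)) (by simp [hFE, hSE])
    simpa using h
  have hyo : y ⊆ ZFSet.omega := fun k hk => (ZFSet.mem_sep.1 hk).1
  have hmy : ∀ k, k ∈ y ↔ k ∈ ZFSet.omega ∧ ∃ c ∈ F, ∃ (n : ℕ) (t : ZFSet.{u}), k ∈ t ∧
      Dcd c n t := by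
    intro k
    rw [hy, ZFSet.mem_sep]
    refine and_congr_right fun _ => ?_
    constructor
    · rintro ⟨c, hc, s, hs, hk, h⟩
      obtain ⟨n, t, ht, rfl⟩ := mem_Str.1 hs
      rw [psnd_pair] at hk
      refine ⟨c, hc, n, t, hk, ht, fun t' ht' hne => ?_⟩
      refine h _ (mem_Str.2 ⟨n, t', ht', rfl⟩) (by rw [pfst_pair, pfst_pair]) fun he => hne ?_
      exact (ZFSet.pair_inj.1 he).2
    · rintro ⟨c, hc, n, t, hk, ht, h⟩
      refine ⟨c, hc, pair (nz n) t, mem_Str.2 ⟨n, t, ht, rfl⟩, by rw [psnd_pair]; exact hk, ?_⟩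
      intro s' hs' h1 h2
      obtain ⟨m, t', ht', rfl⟩ := mem_Str.1 hs'
      rw [pfst_pair, pfst_pair] at h1
      have := nzi.1 h1
      subst this
      exact h t' ht' fun he => h2 (by rw [he])
  -- coherence
  have hcoh : ∀ c ∈ F, ∀ c' ∈ F, ∀ (n n' : ℕ) (t t' : ZFSet.{u}), Dcd c n t → Dcd c' n' t' →
      ∃ x, rl x ∩ nz n = t ∧ rl x ∩ nz n' = t' := by
    intro c hc c' hc' n n' t t' h h'
    obtain ⟨r, hr, hcr, hcr'⟩ := hF.dir c hc c' hc'
    obtain ⟨x, hx⟩ := hF1 r hr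
    exact ⟨x, h.eq fun hx' => hx (US_mono hcr hx'), h'.eq fun hx' => hx (US_mono hcr' hx')⟩
  have hyn : ∀ c ∈ F, ∀ (n : ℕ) (t : ZFSet.{u}), Dcd c n t → y ∩ nz n = t := by
    intro c hc n t hd
    ext k
    rw [ZFSet.mem_inter, hmy]
    constructor
    · rintro ⟨⟨-, c', hc', n', t', hk, hd'⟩, hkn⟩
      obtain ⟨x, hx, hx'⟩ := hcoh c hc c' hc' n n' t t' hd hd'
      rw [← hx, ZFSet.mem_inter]
      rw [← hx', ZFSet.mem_inter] at hk
      exact ⟨hk.1, hkn⟩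
    · intro hk
      have hkn := hd.1 hk
      refine ⟨⟨?_, c, hc, n, t, hk, hd⟩, hkn⟩
      obtain ⟨i, -, rfl⟩ := mem_nz.1 hkn
      exact mem_omega_iff'.2 ⟨i, rfl⟩
  -- every level is decided
  have hlev : ∀ n : ℕ, ∃ c ∈ F, ∃ t, Dcd c n t := by
    intro n
    set D : ZFSet.{u} := (RB M).sep (fun c => ∃ s ∈ Str, pfst s = nz n ∧
      ∀ s' ∈ Str, pfst s' = nz n → ¬ s' = s → s' ∈ c) with hD
    have hnM : (nz n : ZFSet.{u}) ∈ M := hM.zf.trans _ (hM.zf.omega) _ (mem_omega_iff'.2 ⟨n, rfl⟩)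
    have hDM : D ∈ M := by
      have h := (show U KZ (fun _ _ (p : (ZFSet.{u} × ZFSet.{u}) × ZFSet.{u}) =>
          ZFSet.sep (fun c => ∃ s ∈ p.1.2, pfst s = p.2 ∧
            ∀ s' ∈ p.1.2, pfst s' = p.2 → ¬ s' = s → s' ∈ c) p.1.1) by
        apply_rules (transparency := .reducible) (maxDepth := 400) using is_poly).closed hM.zf
        (a := ((RB M, Str), nz n)) (by simp [hR, hSM, hnM])
      simpa using h
    have hdec : ∀ c, c ∈ D ↔ c ∈ RB M ∧ ∃ t, Dcd c n t := by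
      intro c
      rw [hD, ZFSet.mem_sep]
      refine and_congr_right fun _ => ?_
      constructor
      · rintro ⟨s, hs, h1, h2⟩
        obtain ⟨m, t, ht, rfl⟩ := mem_Str.1 hs
        rw [pfst_pair] at h1
        have := nzi.1 h1
        subst this
        refine ⟨t, ht, fun t' ht' hne => h2 _ (mem_Str.2 ⟨m, t', ht', rfl⟩) pfst_pair
          fun he => hne ?_⟩
        exact (ZFSet.pair_inj.1 he).2
      · rintro ⟨t, ht, h⟩
        refine ⟨pair (nz n) t, mem_Str.2 ⟨n, t, ht, rfl⟩, pfst_pair, fun s' hs' h1 h2 => ?_⟩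
        obtain ⟨m, t', ht', rfl⟩ := mem_Str.1 hs'
        rw [pfst_pair] at h1
        have := nzi.1 h1
        subst this
        exact h t' ht' fun he => h2 (by rw [he])
    obtain ⟨c, hcF, hcD⟩ := hF.meets D hDM (fun c hc => ((hdec c).1 hc).1) fun b hb => by
      obtain ⟨c, hc, hbc, ht⟩ := dense_level hMB hM.zf hb n
      exact ⟨c, (hdec c).2 ⟨hc, ht⟩, hbc⟩
    exact ⟨c, hcF, ((hdec c).1 hcD).2⟩
  have hnot : ∀ b ∈ F, ¬ InU b y := by
    rintro b hb ⟨n, hn⟩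
    obtain ⟨c, hc, t, hd⟩ := hlev n
    have h1 := hyn c hc n t hd
    have h1' : y ∩ nz n = t := h1
    have hn' : pair (nz n) (y ∩ nz n) ∈ b := hn
    rw [h1'] at hn'
    obtain ⟨r, hr, hbr, hcr⟩ := hF.dir b hb c hc
    obtain ⟨x, hx⟩ := hF1 r hr
    have h2 : rl x ∩ nz n = t := hd.eq fun hx' => hx (US_mono hcr hx')
    apply hx
    refine ⟨n, ?_⟩
    have h3 : pair (nz n) (rl x ∩ nz n) ∈ r := by rw [h2]; exact hbr hn'
    exact h3
  refine ⟨y, hyE, hyo, ?_⟩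
  ext b
  unfold Fy
  rw [ZFSet.mem_sep]
  constructor
  · intro hb
    exact ⟨hF.sub hb, hnot b hb⟩
  · rintro ⟨hb, hby⟩
    set D : ZFSet.{u} := (RB M).sep (fun c => (∀ x ∈ b, x ∈ c) ∨ ∃ s ∈ b,
      ∀ s' ∈ Str, pfst s' = pfst s → ¬ s' = s → s' ∈ c) with hD
    have hbM : b ∈ M := (mem_RB.1 hb).1
    have hbS : b ⊆ Str := (mem_RB.1 hb).2.1
    have hDM : D ∈ M := by
      have h := (show U KZ (fun _ _ (p : (ZFSet.{u} × ZFSet.{u}) × ZFSet.{u}) =>
          ZFSet.sep (fun c => (∀ x ∈ p.2, x ∈ c) ∨ ∃ s ∈ p.2,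
            ∀ s' ∈ p.1.2, pfst s' = pfst s → ¬ s' = s → s' ∈ c) p.1.1) by
        apply_rules (transparency := .reducible) (maxDepth := 400) using is_poly).closed hM.zf
        (a := ((RB M, Str), b)) (by simp [hR, hSM, hbM])
      simpa using h
    have hdec : ∀ c, c ∈ D ↔ c ∈ RB M ∧ (b ⊆ c ∨ ∃ (n : ℕ) (t : ZFSet.{u}),
        pair (nz n) t ∈ b ∧ Dcd c n t) := by
      intro c
      rw [hD, ZFSet.mem_sep]
      refine and_congr_right fun _ => or_congr Iff.rfl ?_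
      constructor
      · rintro ⟨s, hs, h2⟩
        obtain ⟨m, t, ht, rfl⟩ := mem_Str.1 (hbS hs)
        refine ⟨m, t, hs, ht, fun t' ht' hne => h2 _ (mem_Str.2 ⟨m, t', ht', rfl⟩)
          (by rw [pfst_pair, pfst_pair]) fun he => hne ?_⟩
        exact (ZFSet.pair_inj.1 he).2
      · rintro ⟨n, t, hs, ht, h⟩
        refine ⟨pair (nz n) t, hs, fun s' hs' h1 h2 => ?_⟩
        obtain ⟨m, t', ht', rfl⟩ := mem_Str.1 hs'
        rw [pfst_pair, pfst_pair] at h1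
        have := nzi.1 h1
        subst this
        exact h t' ht' fun he => h2 (by rw [he])
    obtain ⟨c, hcF, hcD⟩ := hF.meets D hDM (fun c hc => ((hdec c).1 hc).1) fun c hc => by
      obtain ⟨r, hr, hcr, h⟩ := dense_code hMB hM.zf hb hc
      exact ⟨r, (hdec r).2 ⟨hr, h⟩, hcr⟩
    rcases ((hdec c).1 hcD).2 with h | ⟨n, t, hs, hd⟩
    · exact hF.up c hcF b hb h
    · exfalso
      apply hby
      have h1 : y ∩ nz n = t := hyn c hcF n t hd
      refine ⟨n, ?_⟩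
      have h2 : pair (nz n) (y ∩ nz n) ∈ b := by rw [h1]; exact hs
      exact h2

end Pool.Agent.Helper26.GP
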